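import Pool.Agent.H66.GF.GC4c
import Pool.Agent.H7.GF.Targets1

/-! Module GC4 (MP_cd65c5_nt): small `A₄` quartics. -/

set_option autoImplicit false

namespace Pool.Agent.H66.GF.GC4

open Polynomial Pool.Agent.H7.GF

/-- the product of the two factors -/
def MM (a b c : ℤ) : ℤ := Qd a b c * (8 * Pd a b ^ 3 + 27 * Qd a b c ^ 2)

/-- constants -/
def kP (c : ℝ) : ℝ := 16 * c + 96
/-- constants -/
def kQ (c : ℝ) : ℝ := 192 * c + 512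
/-- constants -/
def kD (c : ℝ) : ℝ := 8 * kP c ^ 3 + 27 * kQ c ^ 2

lemma bP {c s : ℝ} (hs : 1 ≤ s) {a b : ℤ} (ha : |(a : ℝ)| ≤ 4)
    (hb : |(b : ℝ)| ≤ c * s ^ 2) : |(Pd a b : ℝ)| ≤ kP c * s ^ 2 := by
  have h1 : |(Pd a b : ℝ)| ≤ 16 * |(b : ℝ)| + 6 * |(a : ℝ)| ^ 2 := by
    have : (Pd a b : ℝ) = 16 * (b : ℝ) - 6 * (a : ℝ) ^ 2 := by simp [Pd]
    rw [this]
    refine (abs_sub _ _).trans ?_
    rw [abs_mul, abs_mul, abs_pow]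
    norm_num
  have h2 : |(a : ℝ)| ^ 2 ≤ 16 := by nlinarith [abs_nonneg (a : ℝ)]
  have h3 : (1 : ℝ) ≤ s ^ 2 := one_le_pow₀ hs
  unfold kP
  nlinarith

lemma bQ {c s : ℝ} (hc : 0 < c) (hs : 1 ≤ s) {a b e : ℤ} (ha : |(a : ℝ)| ≤ 4)
    (hb : |(b : ℝ)| ≤ c * s ^ 2) (he : |(e : ℝ)| ≤ c * s ^ 3) :
    |(Qd a b e : ℝ)| ≤ kQ c * s ^ 3 := by
  have h1 : |(Qd a b e : ℝ)| ≤ 64 * |(e : ℝ)| + 32 * |(a : ℝ)| * |(b : ℝ)| + 8 * |(a : ℝ)| ^ 3 := by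
    have : (Qd a b e : ℝ) = 64 * (e : ℝ) - 32 * (a : ℝ) * b + 8 * (a : ℝ) ^ 3 := by simp [Qd]
    rw [this]
    refine (abs_add_le _ _).trans ?_
    refine add_le_add ((abs_sub _ _).trans ?_) ?_
    · rw [abs_mul, abs_mul, abs_mul]; norm_num
    · rw [abs_mul, abs_pow]; norm_num
  have h2 : |(a : ℝ)| ^ 3 ≤ 64 := by
    have := pow_le_pow_left₀ (abs_nonneg (a : ℝ)) ha 3
    linarith
  have h3 : (1 : ℝ) ≤ s ^ 3 := one_le_pow₀ hs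
  have h4 : |(a : ℝ)| * |(b : ℝ)| ≤ 4 * (c * s ^ 3) := by
    have h5 : c * s ^ 2 ≤ c * s ^ 3 :=
      mul_le_mul_of_nonneg_left (pow_le_pow_right₀ hs (by norm_num)) hc.le
    exact mul_le_mul ha (hb.trans h5) (abs_nonneg _) (by norm_num)
  unfold kQ
  nlinarith

lemma kP_pos {c : ℝ} (hc : 0 < c) : 0 < kP c := by unfold kP; linarith
lemma kQ_pos {c : ℝ} (hc : 0 < c) : 0 < kQ c := by unfold kQ; linarith
lemma kD_pos {c : ℝ} (hc : 0 < c) : 0 < kD c := by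
  unfold kD; have := kP_pos hc; have := kQ_pos hc; positivity

lemma bM {c s : ℝ} (hc : 0 < c) (hs : 1 ≤ s) {a b e : ℤ} (ha : |(a : ℝ)| ≤ 4)
    (hb : |(b : ℝ)| ≤ c * s ^ 2) (he : |(e : ℝ)| ≤ c * s ^ 3) :
    |(MM a b e : ℝ)| ≤ kQ c * kD c * s ^ 9 := by
  have h1 := bP hs ha hb
  have h2 := bQ hc hs ha hb he
  have h3 : |(8 * (Pd a b : ℝ) ^ 3 + 27 * (Qd a b e : ℝ) ^ 2)| ≤ kD c * s ^ 6 := by
    refine (abs_add_le _ _).trans ?_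
    rw [abs_mul, abs_mul, abs_pow, abs_pow]
    have h4 := pow_le_pow_left₀ (abs_nonneg _) h1 3
    have h5 := pow_le_pow_left₀ (abs_nonneg _) h2 2
    have e1 : (kP c * s ^ 2) ^ 3 = kP c ^ 3 * s ^ 6 := by ring
    have e2 : (kQ c * s ^ 3) ^ 2 = kQ c ^ 2 * s ^ 6 := by ring
    rw [e1] at h4
    rw [e2] at h5
    unfold kD
    rw [abs_of_pos (by norm_num : (0 : ℝ) < 8), abs_of_pos (by norm_num : (0 : ℝ) < 27)]
    linarith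
  have e : (MM a b e : ℝ) = (Qd a b e : ℝ) * (8 * (Pd a b : ℝ) ^ 3 + 27 * (Qd a b e : ℝ) ^ 2) := by
    simp [MM, Pd, Qd]
  rw [e, abs_mul]
  have := mul_le_mul h2 h3 (abs_nonneg _) (mul_nonneg (kQ_pos hc).le (by positivity))
  calc _ ≤ kQ c * s ^ 3 * (kD c * s ^ 6) := this
    _ = _ := by ring

/-- integers in a symmetric interval -/
lemma card_Icc_le (x : ℝ) (hx : 0 ≤ x) :
    ((Finset.Icc (-⌊x⌋) ⌊x⌋).card : ℝ) ≤ 2 * x + 1 := by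
  rw [Int.card_Icc]
  have h1 : 0 ≤ ⌊x⌋ := Int.floor_nonneg.2 hx
  have h2 : ((⌊x⌋ + 1 - -⌊x⌋).toNat : ℤ) = 2 * ⌊x⌋ + 1 := by
    rw [Int.toNat_of_nonneg (by omega)]; ring
  have h3 : (((⌊x⌋ + 1 - -⌊x⌋).toNat : ℕ) : ℝ) = 2 * (⌊x⌋ : ℝ) + 1 := by exact_mod_cast h2
  rw [h3]
  have := Int.floor_le x
  linarith

lemma mem_Icc_floor {x : ℝ} {a : ℤ} (h : |(a : ℝ)| ≤ x) : a ∈ Finset.Icc (-⌊x⌋) ⌊x⌋ := by
  rw [Finset.mem_Icc]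
  have h1 : |a| ≤ ⌊x⌋ := Int.le_floor.2 (by exact_mod_cast h)
  exact abs_le.1 h1

section

variable {c s : ℝ}

/-- the relation in terms of `s = X ^ (1/6)` -/
def Rel (c s : ℝ) (g : ℤ[X]) : Prop :=
  g.Monic ∧ g.natDegree = 4 ∧ |(g.coeff 3 : ℝ)| ≤ 4 ∧ |(g.coeff 2 : ℝ)| ≤ c * s ^ 2 ∧
  |(g.coeff 1 : ℝ)| ≤ c * s ^ 3 ∧ |(g.coeff 0 : ℝ)| ≤ c * s ^ 4 ∧
  Sq4 g ∧ Qdep g ≠ 0 ∧ ∃ C : ℕ, Squarefree C ∧ (∀ p, p.Prime → p ∣ C → 7 < p ∧ IX p 2 g) ∧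
    s ^ 6 ≤ c * (C : ℝ) ^ 2 ∧ (C : ℝ) ^ 2 ≤ s ^ 6

lemma fiber_sub (t : ℤ × ℤ × ℤ) : Set.Subsingleton {g : ℤ[X] | g.Monic ∧ g.natDegree = 4 ∧
    g.coeff 3 = t.1 ∧ 2 * Pd (g.coeff 3) (g.coeff 2) = -3 * t.2.1 ^ 2 ∧
    Qd (g.coeff 3) (g.coeff 2) (g.coeff 1) = t.2.1 ^ 3 ∧ g.coeff 0 = t.2.2} := by
  rintro g ⟨m, d, h3, h2, h1, h0⟩ g' ⟨m', d', h3', h2', h1', h0'⟩
  have e2 : g.coeff 2 = g'.coeff 2 := by
    rw [← h2', h3, h3'] at h2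
    simp only [Pd] at h2
    linarith
  have e1 : g.coeff 1 = g'.coeff 1 := by
    rw [← h1', h3, h3', e2] at h1
    simp only [Qd] at h1
    linarith
  rw [quart_eq m d, quart_eq m' d', h3, h3', e2, e1, h0, h0']

/-- case (B) -/
lemma caseB (hc : 0 < c) (hs : 1 ≤ s) :
    {g : ℤ[X] | Rel c s g ∧ 8 * Pd (g.coeff 3) (g.coeff 2) ^ 3 +
      27 * Qd (g.coeff 3) (g.coeff 2) (g.coeff 1) ^ 2 = 0}.Finite ∧
    ({g : ℤ[X] | Rel c s g ∧ 8 * Pd (g.coeff 3) (g.coeff 2) ^ 3 +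
      27 * Qd (g.coeff 3) (g.coeff 2) (g.coeff 1) ^ 2 = 0}.ncard : ℝ) ≤
      9 * (2 * (1 + kQ c) + 1) * (2 * c + 1) * s ^ 5 := by
  have hkQ := kQ_pos hc
  have hs0 : 0 < s := by linarith
  set W : ℝ := (1 + kQ c) * s with hW
  have hW0 : 0 ≤ W := by positivity
  set Z : ℝ := c * s ^ 4 with hZ
  have hZ0 : 0 ≤ Z := by positivity
  obtain ⟨h1, h2⟩ := cover ((Finset.Icc (-⌊(4 : ℝ)⌋) ⌊(4 : ℝ)⌋) ×ˢ (Finset.Icc (-⌊W⌋) ⌊W⌋) ×ˢ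
      (Finset.Icc (-⌊Z⌋) ⌊Z⌋))
    {g : ℤ[X] | Rel c s g ∧ 8 * Pd (g.coeff 3) (g.coeff 2) ^ 3 +
      27 * Qd (g.coeff 3) (g.coeff 2) (g.coeff 1) ^ 2 = 0}
    (fun t => {g : ℤ[X] | g.Monic ∧ g.natDegree = 4 ∧ g.coeff 3 = t.1 ∧
      2 * Pd (g.coeff 3) (g.coeff 2) = -3 * t.2.1 ^ 2 ∧
      Qd (g.coeff 3) (g.coeff 2) (g.coeff 1) = t.2.1 ^ 3 ∧ g.coeff 0 = t.2.2})
    (by
      rintro g ⟨⟨hm, hd, h3, h2, h1, h0, -, hQ, -⟩, hD⟩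
      have hQ' : Qd (g.coeff 3) (g.coeff 2) (g.coeff 1) ≠ 0 := hQ
      set P := Pd (g.coeff 3) (g.coeff 2) with hP
      set Q := Qd (g.coeff 3) (g.coeff 2) (g.coeff 1) with hQQ
      -- 27 Q^2 = (-2P)^3
      have e1 : (-2 * P) ^ 3 = 27 * Q ^ 2 := by linarith
      have h3d : (3 : ℤ) ∣ -2 * P := by
        have : (3 : ℤ) ∣ (-2 * P) ^ 3 := by rw [e1]; exact ⟨9 * Q ^ 2, by ring⟩
        exact Int.prime_three.dvd_of_dvd_pow this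
      obtain ⟨u, hu⟩ := h3d
      have e2 : Q ^ 2 = u ^ 3 := by
        rw [hu] at e1
        have : 27 * u ^ 3 = 27 * Q ^ 2 := by linarith
        linarith
      have hu0 : u ≠ 0 := by
        rintro rfl
        have : Q ^ 2 = 0 := by rw [e2]; norm_num
        exact hQ' (pow_eq_zero_iff (two_ne_zero) |>.1 this)
      have h4 : u ∣ Q := by
        have : u ^ 2 ∣ Q ^ 2 := by rw [e2]; exact ⟨u, by ring⟩
        exact (Int.pow_dvd_pow_iff two_ne_zero).1 this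
      obtain ⟨w, hw⟩ := h4
      have e3 : w ^ 2 = u := by
        rw [hw] at e2
        have : u ^ 2 * (w ^ 2 - u) = 0 := by linarith
        have := (mul_eq_zero.1 this).resolve_left (pow_ne_zero _ hu0)
        linarith
      have e4 : Q = w ^ 3 := by rw [hw, ← e3]; ring
      have hQb : |(Q : ℝ)| ≤ kQ c * s ^ 3 := by
        have e5 : (Q : ℝ) = Qd (g.coeff 3 : ℝ) (g.coeff 2 : ℝ) (g.coeff 1 : ℝ) := by
          simp [hQQ, Qd]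
        rw [e5]; exact bQ hc hs h3 h2 h1
      have hwb : |(w : ℝ)| ≤ W := by
        have h5 : |(w : ℝ)| ^ 3 ≤ W ^ 3 := by
          rw [← abs_pow]
          have : ((w : ℝ)) ^ 3 = (Q : ℝ) := by rw [e4]; push_cast; ring
          rw [this, hW, mul_pow]
          refine hQb.trans (mul_le_mul_of_nonneg_right ?_ (by positivity))
          nlinarith [sq_nonneg (kQ c)]
        exact (pow_le_pow_iff_left₀ (abs_nonneg _) hW0 (by norm_num)).1 h5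
      refine ⟨(g.coeff 3, w, g.coeff 0), ?_, hm, hd, rfl, ?_, e4, rfl⟩
      · simp only [Finset.mem_product]
        exact ⟨mem_Icc_floor h3, mem_Icc_floor hwb, mem_Icc_floor h0⟩
      · show 2 * P = -3 * w ^ 2
        rw [e3]; linarith)
    (fun t _ => (fiber_sub t).finite)
    1
    (by
      intro t _
      have : ({g : ℤ[X] | g.Monic ∧ g.natDegree = 4 ∧ g.coeff 3 = t.1 ∧
        2 * Pd (g.coeff 3) (g.coeff 2) = -3 * t.2.1 ^ 2 ∧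
        Qd (g.coeff 3) (g.coeff 2) (g.coeff 1) = t.2.1 ^ 3 ∧ g.coeff 0 = t.2.2}).ncard ≤ 1 := by
        rw [Set.ncard_le_one (fiber_sub t).finite]
        exact fun x hx y hy => fiber_sub t hx hy
      exact_mod_cast this)
  refine ⟨h1, h2.trans ?_⟩
  rw [mul_one, Finset.card_product, Finset.card_product]
  push_cast
  have k1 := card_Icc_le 4 (by norm_num)
  have k2 := card_Icc_le W hW0
  have k3 := card_Icc_le Z hZ0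
  have k2' : 2 * W + 1 ≤ (2 * (1 + kQ c) + 1) * s := by rw [hW]; nlinarith
  have hs4 : (1 : ℝ) ≤ s ^ 4 := one_le_pow₀ hs
  have k3' : 2 * Z + 1 ≤ (2 * c + 1) * s ^ 4 := by rw [hZ]; nlinarith
  have k4 := mul_le_mul (k2.trans k2') (k3.trans k3') (Nat.cast_nonneg _) (by positivity)
  have k5 := mul_le_mul k1 k4 (by positivity) (by norm_num)
  refine k5.trans (le_of_eq ?_)
  ring

/-- case (A), one triple -/
lemma caseA_one (K : ℝ) (hELL : ∀ (J : ℕ) (T : ℝ) (h : ℤ[X]) (R : ℤ), 1 ≤ J → 2 ≤ T →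
    h.natDegree = 3 → R ≠ 0 → |(R : ℝ)| ≤ T →
    (∀ p : ℕ, p.Prime → 3 < p → ¬ ((p : ℤ) ∣ R) → (Pool.Agent.H7.GF.toZ p h).natDegree = 3 ∧
      Squarefree (Pool.Agent.H7.GF.toZ p h)) →
    ({j : ℤ | |j| ≤ (J : ℤ) ∧ IsSquare (h.eval j)}.ncard : ℝ) ≤
      K * ((J : ℝ) ^ (1 / 2 : ℝ) * Real.log (J + 2) + Real.log T ^ 6))
    (Kω : ℝ) (hOMG : ∀ N : ℕ, 1 ≤ N → (4 : ℝ) ^ (om N) ≤ Kω * (N : ℝ) ^ (1 / 90 : ℝ))
    (hc : 0 < c) (hs : 1 ≤ s) (J : ℕ) (T : ℝ) (hJ1 : 1 ≤ J) (hJ : 2 * c * Real.sqrt c * s ≤ J)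
    (hT2 : 2 ≤ T) (hT : 2 * (kQ c * kD c) * s ^ 12 ≤ T) (a b e : ℤ) :
    {g : ℤ[X] | Rel c s g ∧ g.coeff 3 = a ∧ g.coeff 2 = b ∧ g.coeff 1 = e ∧
      8 * Pd a b ^ 3 + 27 * Qd a b e ^ 2 ≠ 0}.Finite ∧
    ({g : ℤ[X] | Rel c s g ∧ g.coeff 3 = a ∧ g.coeff 2 = b ∧ g.coeff 1 = e ∧
      8 * Pd a b ^ 3 + 27 * Qd a b e ^ 2 ≠ 0}.ncard : ℝ) ≤
      |Kω| * (kQ c * kD c * s ^ 9) ^ (1 / 90 : ℝ) *
        (|K| * ((J : ℝ) ^ (1 / 2 : ℝ) * Real.log (J + 2) + Real.log T ^ 6)) := by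
  have hs0 : 0 < s := by linarith
  have hkQ := kQ_pos hc
  have hkD := kD_pos hc
  have hJ0 : 0 ≤ Real.log ((J : ℝ) + 2) :=
    Real.log_nonneg (by have : (0 : ℝ) ≤ J := Nat.cast_nonneg J; linarith)
  have hB1 : 0 ≤ |K| * ((J : ℝ) ^ (1 / 2 : ℝ) * Real.log (J + 2) + Real.log T ^ 6) := by
    positivity
  set S := {g : ℤ[X] | Rel c s g ∧ g.coeff 3 = a ∧ g.coeff 2 = b ∧ g.coeff 1 = e ∧
      8 * Pd a b ^ 3 + 27 * Qd a b e ^ 2 ≠ 0} with hS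
  rcases Set.eq_empty_or_nonempty S with hem | ⟨g₀, hg₀⟩
  · rw [hem]
    simp only [Set.finite_empty, Set.ncard_empty, Nat.cast_zero, true_and]
    exact mul_nonneg (by positivity) hB1
  obtain ⟨⟨-, -, ha, hb, he, -, -, hQ, -⟩, ea, eb, ee, hD⟩ := hg₀
  rw [ea] at ha
  rw [eb] at hb
  rw [ee] at he
  have hQ' : Qd a b e ≠ 0 := by
    have : Qd (g₀.coeff 3) (g₀.coeff 2) (g₀.coeff 1) ≠ 0 := hQ
    rwa [ea, eb, ee] at this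
  have hM : MM a b e ≠ 0 := mul_ne_zero hQ' hD
  have hMb := bM hc hs ha hb he
  set M : ℕ := (MM a b e).natAbs with hMdef
  have hM0 : M ≠ 0 := Int.natAbs_ne_zero.2 hM
  have hMr : (M : ℝ) ≤ kQ c * kD c * s ^ 9 := by
    have : (M : ℝ) = |(MM a b e : ℝ)| := by
      rw [hMdef, Nat.cast_natAbs]; push_cast; rfl
    rw [this]; exact hMb
  have key : ∀ t : ℕ × ℕ, t.1.Coprime t.2 → (t.1 * t.2).Coprime 6 →
      s ^ 6 ≤ c * ((t.1 * t.2 : ℕ) : ℝ) ^ 2 → ((t.1 * t.2 : ℕ) : ℝ) ^ 2 ≤ s ^ 6 →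
      (GG a b e (c * s ^ 4) t.1 t.2).Finite ∧ ((GG a b e (c * s ^ 4) t.1 t.2).ncard : ℝ) ≤
        |K| * ((J : ℝ) ^ (1 / 2 : ℝ) * Real.log (J + 2) + Real.log T ^ 6) := by
    intro t k1 k2 k3 k4
    have hN0 : (0 : ℝ) ≤ ((t.1 * t.2 : ℕ) : ℝ) := Nat.cast_nonneg _
    refine count K hELL a b e (c * s ^ 4) t.1 t.2 J T hJ1 hT2 hQ' hD k1 k2 ?_ ?_
    · have h5 : s ^ 3 ≤ Real.sqrt c * ((t.1 * t.2 : ℕ) : ℝ) := by
        have h6 : (s ^ 3) ^ 2 ≤ (Real.sqrt c * ((t.1 * t.2 : ℕ) : ℝ)) ^ 2 := by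
          rw [mul_pow, Real.sq_sqrt hc.le, ← pow_mul]
          exact k3
        exact (pow_le_pow_iff_left₀ (by positivity) (by positivity) two_ne_zero).1 h6
      have h7 : 2 * c * Real.sqrt c * s * ((t.1 * t.2 : ℕ) : ℝ) ≤ J * ((t.1 * t.2 : ℕ) : ℝ) :=
        mul_le_mul_of_nonneg_right hJ hN0
      have h8 : 2 * c * s * s ^ 3 ≤ 2 * c * s * (Real.sqrt c * ((t.1 * t.2 : ℕ) : ℝ)) :=
        mul_le_mul_of_nonneg_left h5 (by positivity)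
      calc 2 * (c * s ^ 4) = 2 * c * s * s ^ 3 := by ring
        _ ≤ 2 * c * s * (Real.sqrt c * ((t.1 * t.2 : ℕ) : ℝ)) := h8
        _ = 2 * c * Real.sqrt c * s * ((t.1 * t.2 : ℕ) : ℝ) := by ring
        _ ≤ _ := h7
    · have h5 : ((t.1 * t.2 : ℕ) : ℝ) ≤ s ^ 3 := by
        have h6 : ((t.1 * t.2 : ℕ) : ℝ) ^ 2 ≤ (s ^ 3) ^ 2 := by
          rw [← pow_mul]; exact k4
        exact (pow_le_pow_iff_left₀ hN0 (by positivity) two_ne_zero).1 h6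
      have h6 : ((2 * ((t.1 * t.2 : ℕ) : ℤ) *
          (Qd a b e * (8 * Pd a b ^ 3 + 27 * Qd a b e ^ 2)) : ℤ) : ℝ) =
          2 * ((t.1 * t.2 : ℕ) : ℝ) * (MM a b e : ℝ) := by
        rw [MM]; push_cast; ring
      rw [h6, abs_mul, abs_of_nonneg (by positivity : (0 : ℝ) ≤ 2 * ((t.1 * t.2 : ℕ) : ℝ))]
      refine le_trans ?_ hT
      have h7 := mul_le_mul h5 hMb (abs_nonneg _) (by positivity)
      calc 2 * ((t.1 * t.2 : ℕ) : ℝ) * |(MM a b e : ℝ)|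
          = 2 * (((t.1 * t.2 : ℕ) : ℝ) * |(MM a b e : ℝ)|) := by ring
        _ ≤ 2 * (s ^ 3 * (kQ c * kD c * s ^ 9)) := by linarith
        _ = _ := by ring
  obtain ⟨h1, h2⟩ := cover (Dv M ×ˢ Dv M) S
    (fun t => {g : ℤ[X] | g ∈ GG a b e (c * s ^ 4) t.1 t.2 ∧ t.1.Coprime t.2 ∧
      (t.1 * t.2).Coprime 6 ∧ s ^ 6 ≤ c * ((t.1 * t.2 : ℕ) : ℝ) ^ 2 ∧
      ((t.1 * t.2 : ℕ) : ℝ) ^ 2 ≤ s ^ 6})
    (by
      rintro g ⟨⟨hm, hd, h3, h2, h1, h0, hsq, hQg, C, hC, hCp, hX1, hX2⟩, ga, gb, ge, -⟩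
      obtain ⟨C₁, C₂, h12, hcop, hd1, hd2, hd3⟩ := split_C hC (Qd a b e)
        (4 * Rd a b e (g.coeff 0) - Pd a b ^ 2) (8 * Pd a b ^ 3 + 27 * Qd a b e ^ 2)
        (12 * Rd a b e (g.coeff 0) + Pd a b ^ 2) (by
          intro p hp hpC
          have := modp_int hm hd hp (hCp p hp hpC).1 (hCp p hp hpC).2
          rwa [ga, gb, ge] at this)
      have hsq12 : Squarefree (C₁ * C₂) := by rw [h12]; exact hC
      have hdM : C₁ * C₂ ∣ M := by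
        rw [hMdef, ← Int.natCast_dvd]; exact hd3
      refine ⟨(C₁, C₂), ?_, ⟨hm, hd, ga, gb, ge, h0, hsq, hd1, hd2⟩, hcop, ?_, ?_, ?_⟩
      · rw [Finset.mem_product]
        exact ⟨mem_Dv (hsq12.squarefree_of_dvd (Dvd.intro _ rfl)) ((Dvd.intro _ rfl).trans hdM) hM0,
          mem_Dv (hsq12.squarefree_of_dvd (Dvd.intro_left _ rfl))
            ((Dvd.intro_left _ rfl).trans hdM) hM0⟩
      · show (C₁ * C₂).Coprime 6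
        rw [h12]
        refine Nat.Coprime.symm (Nat.coprime_of_dvd ?_)
        intro p hp hp6 hpC
        have h7 := (hCp p hp hpC).1
        have := Nat.le_of_dvd (by norm_num) hp6
        omega
      · show s ^ 6 ≤ c * ((C₁ * C₂ : ℕ) : ℝ) ^ 2
        rw [h12]; exact hX1
      · show ((C₁ * C₂ : ℕ) : ℝ) ^ 2 ≤ s ^ 6
        rw [h12]; exact hX2)
    (by
      intro t _
      by_cases hcond : t.1.Coprime t.2 ∧ (t.1 * t.2).Coprime 6 ∧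
          s ^ 6 ≤ c * ((t.1 * t.2 : ℕ) : ℝ) ^ 2 ∧ ((t.1 * t.2 : ℕ) : ℝ) ^ 2 ≤ s ^ 6
      · exact (key t hcond.1 hcond.2.1 hcond.2.2.1 hcond.2.2.2).1.subset fun g hg => hg.1
      · refine (Set.finite_empty).subset ?_
        rintro g ⟨-, hg⟩
        exact absurd hg hcond)
    (|K| * ((J : ℝ) ^ (1 / 2 : ℝ) * Real.log (J + 2) + Real.log T ^ 6))
    (by
      intro t _
      by_cases hcond : t.1.Coprime t.2 ∧ (t.1 * t.2).Coprime 6 ∧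
          s ^ 6 ≤ c * ((t.1 * t.2 : ℕ) : ℝ) ^ 2 ∧ ((t.1 * t.2 : ℕ) : ℝ) ^ 2 ≤ s ^ 6
      · obtain ⟨f1, f2⟩ := key t hcond.1 hcond.2.1 hcond.2.2.1 hcond.2.2.2
        refine le_trans ?_ f2
        have hsub : {g : ℤ[X] | g ∈ GG a b e (c * s ^ 4) t.1 t.2 ∧ t.1.Coprime t.2 ∧
            (t.1 * t.2).Coprime 6 ∧ s ^ 6 ≤ c * ((t.1 * t.2 : ℕ) : ℝ) ^ 2 ∧
            ((t.1 * t.2 : ℕ) : ℝ) ^ 2 ≤ s ^ 6} ⊆ GG a b e (c * s ^ 4) t.1 t.2 :=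
          fun g hg => hg.1
        exact_mod_cast Set.ncard_le_ncard hsub f1
      · have hemp : {g : ℤ[X] | g ∈ GG a b e (c * s ^ 4) t.1 t.2 ∧ t.1.Coprime t.2 ∧
            (t.1 * t.2).Coprime 6 ∧ s ^ 6 ≤ c * ((t.1 * t.2 : ℕ) : ℝ) ^ 2 ∧
            ((t.1 * t.2 : ℕ) : ℝ) ^ 2 ≤ s ^ 6} = ∅ := by
          rw [Set.eq_empty_iff_forall_notMem]
          rintro g ⟨-, hg⟩
          exact hcond hg
        rw [hemp, Set.ncard_empty, Nat.cast_zero]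
        exact hB1)
  refine ⟨h1, h2.trans ?_⟩
  refine mul_le_mul_of_nonneg_right ?_ hB1
  rw [Finset.card_product]
  push_cast
  have k1 : ((Dv M).card : ℝ) ≤ 2 ^ (om M) := by exact_mod_cast card_Dv M
  have k2 : ((Dv M).card : ℝ) * ((Dv M).card : ℝ) ≤ (4 : ℝ) ^ (om M) := by
    have : (4 : ℝ) ^ (om M) = 2 ^ (om M) * 2 ^ (om M) := by
      rw [← mul_pow]; norm_num
    rw [this]
    exact mul_le_mul k1 k1 (Nat.cast_nonneg _) (by positivity)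
  refine k2.trans ((hOMG M (Nat.pos_of_ne_zero hM0)).trans ?_)
  refine mul_le_mul (le_abs_self _) (Real.rpow_le_rpow (Nat.cast_nonneg _) hMr (by norm_num))
    (by positivity) (abs_nonneg _)

/-- case (A) -/
lemma caseA (K : ℝ) (hELL : ∀ (J : ℕ) (T : ℝ) (h : ℤ[X]) (R : ℤ), 1 ≤ J → 2 ≤ T →
    h.natDegree = 3 → R ≠ 0 → |(R : ℝ)| ≤ T →
    (∀ p : ℕ, p.Prime → 3 < p → ¬ ((p : ℤ) ∣ R) → (Pool.Agent.H7.GF.toZ p h).natDegree = 3 ∧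
      Squarefree (Pool.Agent.H7.GF.toZ p h)) →
    ({j : ℤ | |j| ≤ (J : ℤ) ∧ IsSquare (h.eval j)}.ncard : ℝ) ≤
      K * ((J : ℝ) ^ (1 / 2 : ℝ) * Real.log (J + 2) + Real.log T ^ 6))
    (Kω : ℝ) (hOMG : ∀ N : ℕ, 1 ≤ N → (4 : ℝ) ^ (om N) ≤ Kω * (N : ℝ) ^ (1 / 90 : ℝ))
    (hc : 0 < c) (hs : 1 ≤ s) (J : ℕ) (T : ℝ) (hJ1 : 1 ≤ J) (hJ : 2 * c * Real.sqrt c * s ≤ J)
    (hT2 : 2 ≤ T) (hT : 2 * (kQ c * kD c) * s ^ 12 ≤ T) :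
    {g : ℤ[X] | Rel c s g ∧ 8 * Pd (g.coeff 3) (g.coeff 2) ^ 3 +
      27 * Qd (g.coeff 3) (g.coeff 2) (g.coeff 1) ^ 2 ≠ 0}.Finite ∧
    ({g : ℤ[X] | Rel c s g ∧ 8 * Pd (g.coeff 3) (g.coeff 2) ^ 3 +
      27 * Qd (g.coeff 3) (g.coeff 2) (g.coeff 1) ^ 2 ≠ 0}.ncard : ℝ) ≤
      9 * (2 * c + 1) ^ 2 * s ^ 5 * (|Kω| * (kQ c * kD c * s ^ 9) ^ (1 / 90 : ℝ) *
        (|K| * ((J : ℝ) ^ (1 / 2 : ℝ) * Real.log (J + 2) + Real.log T ^ 6))) := by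
  have hs0 : 0 < s := by linarith
  have hkQ := kQ_pos hc
  have hkD := kD_pos hc
  have hJ0 : 0 ≤ Real.log ((J : ℝ) + 2) :=
    Real.log_nonneg (by have : (0 : ℝ) ≤ J := Nat.cast_nonneg J; linarith)
  set Y : ℝ := c * s ^ 2 with hY
  have hY0 : 0 ≤ Y := by positivity
  set Z : ℝ := c * s ^ 3 with hZ
  have hZ0 : 0 ≤ Z := by positivity
  obtain ⟨h1, h2⟩ := cover ((Finset.Icc (-⌊(4 : ℝ)⌋) ⌊(4 : ℝ)⌋) ×ˢ (Finset.Icc (-⌊Y⌋) ⌊Y⌋) ×ˢ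
      (Finset.Icc (-⌊Z⌋) ⌊Z⌋))
    {g : ℤ[X] | Rel c s g ∧ 8 * Pd (g.coeff 3) (g.coeff 2) ^ 3 +
      27 * Qd (g.coeff 3) (g.coeff 2) (g.coeff 1) ^ 2 ≠ 0}
    (fun t => {g : ℤ[X] | Rel c s g ∧ g.coeff 3 = t.1 ∧ g.coeff 2 = t.2.1 ∧ g.coeff 1 = t.2.2 ∧
      8 * Pd t.1 t.2.1 ^ 3 + 27 * Qd t.1 t.2.1 t.2.2 ^ 2 ≠ 0})
    (by
      rintro g ⟨hg, hD⟩
      obtain ⟨hm, hd, h3, h2, h1, -⟩ := id hg
      refine ⟨(g.coeff 3, g.coeff 2, g.coeff 1), ?_, hg, rfl, rfl, rfl, hD⟩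
      simp only [Finset.mem_product]
      exact ⟨mem_Icc_floor h3, mem_Icc_floor h2, mem_Icc_floor h1⟩)
    (fun t _ => (caseA_one K hELL Kω hOMG hc hs J T hJ1 hJ hT2 hT t.1 t.2.1 t.2.2).1)
    _
    (fun t _ => (caseA_one K hELL Kω hOMG hc hs J T hJ1 hJ hT2 hT t.1 t.2.1 t.2.2).2)
  refine ⟨h1, h2.trans ?_⟩
  refine mul_le_mul_of_nonneg_right ?_ (by positivity)
  rw [Finset.card_product, Finset.card_product]
  push_cast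
  have k1 := card_Icc_le 4 (by norm_num)
  have k2 := card_Icc_le Y hY0
  have k3 := card_Icc_le Z hZ0
  have hs2 : (1 : ℝ) ≤ s ^ 2 := one_le_pow₀ hs
  have hs3 : (1 : ℝ) ≤ s ^ 3 := one_le_pow₀ hs
  have k2' : 2 * Y + 1 ≤ (2 * c + 1) * s ^ 2 := by rw [hY]; nlinarith
  have k3' : 2 * Z + 1 ≤ (2 * c + 1) * s ^ 3 := by rw [hZ]; nlinarith
  have k4 := mul_le_mul (k2.trans k2') (k3.trans k3') (Nat.cast_nonneg _) (by positivity)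
  have k5 := mul_le_mul k1 k4 (by positivity) (by norm_num)
  refine k5.trans (le_of_eq ?_)
  ring

end

/-- the final estimate -/
lemma final (c K Kω : ℝ) (hc : 0 < c) : ∃ A : ℝ, ∀ s : ℝ, 1 ≤ s → ∃ (J : ℕ) (T : ℝ), 1 ≤ J ∧
    2 * c * Real.sqrt c * s ≤ J ∧ 2 ≤ T ∧ 2 * (kQ c * kD c) * s ^ 12 ≤ T ∧
    9 * (2 * c + 1) ^ 2 * s ^ 5 * (|Kω| * (kQ c * kD c * s ^ 9) ^ (1 / 90 : ℝ) *
        (|K| * ((J : ℝ) ^ (1 / 2 : ℝ) * Real.log (J + 2) + Real.log T ^ 6))) ≤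
      A * s ^ (57 / 10 : ℝ) := by
  have hkQ := kQ_pos hc
  have hkD := kD_pos hc
  set kM : ℝ := kQ c * kD c with hkM
  have hkM0 : 0 < kM := mul_pos hkQ hkD
  set kJ : ℝ := 2 * c * Real.sqrt c + 4 with hkJ
  have hkJ0 : 0 < kJ := by positivity
  set kT : ℝ := 2 * kM + 2 with hkT
  have hkT0 : 0 < kT := by positivity
  refine ⟨9 * (2 * c + 1) ^ 2 * (|Kω| * kM ^ (1 / 90 : ℝ) *
    (|K| * (kJ ^ (1 / 2 : ℝ) * (kJ ^ (1 / 20 : ℝ) * 20) + kT ^ (1 / 24 : ℝ) * 144 ^ 6))), ?_⟩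
  intro s hs
  have hs0 : 0 < s := by linarith
  refine ⟨⌈2 * c * Real.sqrt c * s⌉₊ + 1, kT * s ^ 12, by omega, ?_, ?_, ?_, ?_⟩
  · push_cast
    have := Nat.le_ceil (2 * c * Real.sqrt c * s)
    linarith
  · have : (1 : ℝ) ≤ s ^ 12 := one_le_pow₀ hs
    nlinarith
  · have : (0 : ℝ) ≤ s ^ 12 := by positivity
    nlinarith
  · set J : ℕ := ⌈2 * c * Real.sqrt c * s⌉₊ + 1 with hJ
    have hJ2 : (J : ℝ) + 2 ≤ kJ * s := by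
      rw [hJ]; push_cast
      have := Nat.ceil_lt_add_one (a := 2 * c * Real.sqrt c * s) (by positivity)
      rw [hkJ]; nlinarith
    have hJn : (0 : ℝ) ≤ J := Nat.cast_nonneg J
    have hJ1 : (J : ℝ) ≤ kJ * s := by linarith
    have b1 : (J : ℝ) ^ (1 / 2 : ℝ) ≤ kJ ^ (1 / 2 : ℝ) * s ^ (1 / 2 : ℝ) := by
      rw [← Real.mul_rpow hkJ0.le hs0.le]
      exact Real.rpow_le_rpow hJn hJ1 (by norm_num)
    have b2 : Real.log ((J : ℝ) + 2) ≤ kJ ^ (1 / 20 : ℝ) * 20 * s ^ (1 / 20 : ℝ) := by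
      have h1 := Real.log_le_rpow_div (x := (J : ℝ) + 2) (by positivity)
        (ε := 1 / 20) (by norm_num)
      have h2 : ((J : ℝ) + 2) ^ (1 / 20 : ℝ) ≤ kJ ^ (1 / 20 : ℝ) * s ^ (1 / 20 : ℝ) := by
        rw [← Real.mul_rpow hkJ0.le hs0.le]
        exact Real.rpow_le_rpow (by positivity) hJ2 (by norm_num)
      have h3 : ((J : ℝ) + 2) ^ (1 / 20 : ℝ) / (1 / 20) = ((J : ℝ) + 2) ^ (1 / 20 : ℝ) * 20 := by
        ring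
      rw [h3] at h1
      linarith
    have hlog0 : 0 ≤ Real.log ((J : ℝ) + 2) := Real.log_nonneg (by linarith)
    have b3 : (J : ℝ) ^ (1 / 2 : ℝ) * Real.log ((J : ℝ) + 2) ≤
        kJ ^ (1 / 2 : ℝ) * (kJ ^ (1 / 20 : ℝ) * 20) * s ^ (11 / 20 : ℝ) := by
      refine (mul_le_mul b1 b2 hlog0 (by positivity)).trans (le_of_eq ?_)
      have : s ^ (11 / 20 : ℝ) = s ^ (1 / 2 : ℝ) * s ^ (1 / 20 : ℝ) := by
        rw [← Real.rpow_add hs0]; norm_num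
      rw [this]; ring
    have hT1 : 1 ≤ kT * s ^ 12 := by
      have : (1 : ℝ) ≤ s ^ 12 := one_le_pow₀ hs
      nlinarith
    have b4 : Real.log (kT * s ^ 12) ^ 6 ≤ kT ^ (1 / 24 : ℝ) * 144 ^ 6 * s ^ (11 / 20 : ℝ) := by
      have h1 := Real.log_le_rpow_div (x := kT * s ^ 12) (by positivity)
        (ε := 1 / 144) (by norm_num)
      have h2 := pow_le_pow_left₀ (Real.log_nonneg hT1) h1 6
      refine h2.trans ?_
      have h3 : ((kT * s ^ 12) ^ (1 / 144 : ℝ) / (1 / 144)) ^ 6 =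
          kT ^ (1 / 24 : ℝ) * 144 ^ 6 * s ^ (1 / 2 : ℝ) := by
        have h4 : (kT * s ^ 12) ^ (1 / 144 : ℝ) / (1 / 144) = (kT * s ^ 12) ^ (1 / 144 : ℝ) * 144 := by
          ring
        rw [h4, mul_pow, ← Real.rpow_natCast ((kT * s ^ 12) ^ (1 / 144 : ℝ)) 6,
          ← Real.rpow_mul (by positivity), Real.mul_rpow hkT0.le (by positivity),
          ← Real.rpow_natCast s 12, ← Real.rpow_mul hs0.le]
        norm_num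
        ring
      rw [h3]
      refine mul_le_mul_of_nonneg_left ?_ (by positivity)
      exact Real.rpow_le_rpow_of_exponent_le hs (by norm_num)
    have b5 : (J : ℝ) ^ (1 / 2 : ℝ) * Real.log ((J : ℝ) + 2) + Real.log (kT * s ^ 12) ^ 6 ≤
        (kJ ^ (1 / 2 : ℝ) * (kJ ^ (1 / 20 : ℝ) * 20) + kT ^ (1 / 24 : ℝ) * 144 ^ 6) *
          s ^ (11 / 20 : ℝ) := by
      exact (add_le_add b3 b4).trans (le_of_eq (by ring))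
    have b6 : (kM * s ^ 9) ^ (1 / 90 : ℝ) = kM ^ (1 / 90 : ℝ) * s ^ (1 / 10 : ℝ) := by
      rw [Real.mul_rpow hkM0.le (by positivity), ← Real.rpow_natCast s 9, ← Real.rpow_mul hs0.le]
      norm_num
    rw [b6]
    have b7 : s ^ (5 : ℕ) * s ^ (1 / 10 : ℝ) * s ^ (11 / 20 : ℝ) ≤ s ^ (57 / 10 : ℝ) := by
      rw [← Real.rpow_natCast s 5, ← Real.rpow_add hs0, ← Real.rpow_add hs0]
      exact Real.rpow_le_rpow_of_exponent_le hs (by norm_num)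
    set E : ℝ := kJ ^ (1 / 2 : ℝ) * (kJ ^ (1 / 20 : ℝ) * 20) + kT ^ (1 / 24 : ℝ) * 144 ^ 6 with hE
    have hE0 : 0 ≤ E := by positivity
    calc 9 * (2 * c + 1) ^ 2 * s ^ 5 * (|Kω| * (kM ^ (1 / 90 : ℝ) * s ^ (1 / 10 : ℝ)) *
          (|K| * ((J : ℝ) ^ (1 / 2 : ℝ) * Real.log ((J : ℝ) + 2) + Real.log (kT * s ^ 12) ^ 6)))
        ≤ 9 * (2 * c + 1) ^ 2 * s ^ 5 * (|Kω| * (kM ^ (1 / 90 : ℝ) * s ^ (1 / 10 : ℝ)) *
          (|K| * (E * s ^ (11 / 20 : ℝ)))) := by gcongr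
      _ = 9 * (2 * c + 1) ^ 2 * (|Kω| * kM ^ (1 / 90 : ℝ) * (|K| * E)) *
          (s ^ (5 : ℕ) * s ^ (1 / 10 : ℝ) * s ^ (11 / 20 : ℝ)) := by ring
      _ ≤ _ := mul_le_mul_of_nonneg_left b7 (by positivity)

theorem gc4 (hELL : T_ELL) (hOMG : T_OMG) : T_GC4 := by
  intro c hc
  obtain ⟨K, hK⟩ := hELL
  obtain ⟨Kω, hKω⟩ := hOMG 4 (by norm_num) (1 / 90) (by norm_num)
  obtain ⟨A, hA⟩ := final c K Kω hc
  have hkQ := kQ_pos hc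
  refine ⟨A + 9 * (2 * (1 + kQ c) + 1) * (2 * c + 1), ?_⟩
  intro X hX
  have hX0 : 0 ≤ X := by linarith
  set s : ℝ := X ^ (1 / 6 : ℝ) with hsdef
  have hs : 1 ≤ s := Real.one_le_rpow hX (by norm_num)
  have hs0 : 0 < s := by linarith
  have hsn : ∀ k : ℕ, s ^ k = X ^ ((k : ℝ) / 6) := by
    intro k
    rw [hsdef, ← Real.rpow_natCast, ← Real.rpow_mul hX0]
    congr 1; ring
  have e2 : X ^ (1 / 3 : ℝ) = s ^ 2 := by rw [hsn]; norm_num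
  have e3 : X ^ (1 / 2 : ℝ) = s ^ 3 := by rw [hsn]; norm_num
  have e4 : X ^ (2 / 3 : ℝ) = s ^ 4 := by rw [hsn]; norm_num
  have e6 : X = s ^ 6 := by rw [hsn]; norm_num
  have e57 : X ^ (19 / 20 : ℝ) = s ^ (57 / 10 : ℝ) := by
    rw [hsdef, ← Real.rpow_mul hX0]; norm_num
  obtain ⟨J, T, hJ1, hJ, hT2, hT, hfin⟩ := hA s hs
  obtain ⟨a1, a2⟩ := caseA K hK Kω hKω hc hs J T hJ1 hJ hT2 hT
  obtain ⟨b1, b2⟩ := caseB hc hs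
  have hsub : {g : ℤ[X] | RelG4 c X g} ⊆
      {g : ℤ[X] | Rel c s g ∧ 8 * Pd (g.coeff 3) (g.coeff 2) ^ 3 +
        27 * Qd (g.coeff 3) (g.coeff 2) (g.coeff 1) ^ 2 ≠ 0} ∪
      {g : ℤ[X] | Rel c s g ∧ 8 * Pd (g.coeff 3) (g.coeff 2) ^ 3 +
        27 * Qd (g.coeff 3) (g.coeff 2) (g.coeff 1) ^ 2 = 0} := by
    rintro g ⟨h1, h2, h3, h4, h5, h6, h7, h8, C, h9, h10, h11, h12⟩
    rw [e2] at h4
    rw [e3] at h5
    rw [e4] at h6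
    rw [e6] at h11 h12
    have hR : Rel c s g := ⟨h1, h2, h3, h4, h5, h6, h7, h8, C, h9, h10, h11, h12⟩
    by_cases hD : 8 * Pd (g.coeff 3) (g.coeff 2) ^ 3 +
        27 * Qd (g.coeff 3) (g.coeff 2) (g.coeff 1) ^ 2 = 0
    · exact Or.inr ⟨hR, hD⟩
    · exact Or.inl ⟨hR, hD⟩
  refine ⟨(a1.union b1).subset hsub, ?_⟩
  have h1 : ({g : ℤ[X] | RelG4 c X g}.ncard : ℝ) ≤
      ({g : ℤ[X] | Rel c s g ∧ 8 * Pd (g.coeff 3) (g.coeff 2) ^ 3 +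
        27 * Qd (g.coeff 3) (g.coeff 2) (g.coeff 1) ^ 2 ≠ 0}.ncard : ℝ) +
      ({g : ℤ[X] | Rel c s g ∧ 8 * Pd (g.coeff 3) (g.coeff 2) ^ 3 +
        27 * Qd (g.coeff 3) (g.coeff 2) (g.coeff 1) ^ 2 = 0}.ncard : ℝ) := by
    exact_mod_cast (Set.ncard_le_ncard hsub (a1.union b1)).trans (Set.ncard_union_le _ _)
  refine h1.trans ?_
  rw [e57, add_mul]
  refine add_le_add (a2.trans hfin) (b2.trans ?_)
  refine mul_le_mul_of_nonneg_left ?_ (by positivity)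
  rw [← Real.rpow_natCast]
  exact Real.rpow_le_rpow_of_exponent_le hs (by norm_num)

end Pool.Agent.H66.GF.GC4
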