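import Pool.Agent.H7.GF.Targets3

/-! Module GC4 (MP_cd65c5_nt), part a: quartic polynomials modulo primes. -/

set_option autoImplicit false

namespace Pool.Agent.H66.GF.GC4

open Polynomial Pool.Agent.H7.GF

/-- `P` of the depressed quartic -/
def Pd {R : Type} [CommRing R] (a b : R) : R := 16 * b - 6 * a ^ 2
/-- `Q` of the depressed quartic -/
def Qd {R : Type} [CommRing R] (a b c : R) : R := 64 * c - 32 * a * b + 8 * a ^ 3
/-- `R` of the depressed quartic -/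
def Rd {R : Type} [CommRing R] (a b c d : R) : R :=
  256 * d - 64 * a * c + 16 * a ^ 2 * b - 3 * a ^ 4

lemma lin_zero {F : Type} [Field F] {q : F[X]} (h2 : 2 ≤ q.natDegree) {u v : F}
    (h : q ∣ C u * X + C v) : u = 0 ∧ v = 0 := by
  have h1 : C u * X + C v = 0 :=
    eq_zero_of_dvd_of_natDegree_lt h (lt_of_le_of_lt natDegree_linear_le (by omega))
  have h3 := congrArg (fun f => coeff f 1) h1
  have h4 := congrArg (fun f => coeff f 0) h1
  simp at h3 h4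
  exact ⟨h3, h4⟩

lemma modp {F : Type} [Field F] (h2 : (2 : F) ≠ 0) (h3 : (3 : F) ≠ 0) (a b c d : F)
    (h : IXp 2 (X ^ 4 + C a * X ^ 3 + C b * X ^ 2 + C c * X + C d : F[X])) :
    (Qd a b c = 0 ∧ 4 * Rd a b c d - Pd a b ^ 2 = 0) ∨
      (8 * Pd a b ^ 3 + 27 * Qd a b c ^ 2 = 0 ∧ 12 * Rd a b c d + Pd a b ^ 2 = 0) := by
  obtain ⟨q, hq, hd, hqg, hqg'⟩ := h
  have hder : derivative (X ^ 4 + C a * X ^ 3 + C b * X ^ 2 + C c * X + C d : F[X]) =
      4 * X ^ 3 + 3 * C a * X ^ 2 + 2 * C b * X + C c := by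
    simp only [derivative_add, derivative_mul, derivative_C, derivative_X_pow, derivative_X,
      zero_mul, zero_add, mul_one, add_zero]
    norm_num [map_ofNat]
    ring
  rw [hder] at hqg'
  have h4 : (4 : F) ≠ 0 := by
    have : (4 : F) = 2 * 2 := by norm_num
    rw [this]; exact mul_ne_zero h2 h2
  have h12 : (12 : F) ≠ 0 := by
    have : (12 : F) = 4 * 3 := by norm_num
    rw [this]; exact mul_ne_zero h4 h3
  set P : F := Pd a b with hP
  set Q : F := Qd a b c with hQ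
  set R : F := Rd a b c d with hR
  -- the two combinations
  have hW : q ∣ C (2 * P) * (C 4 * X + C a) ^ 2 + C (3 * Q) * (C 4 * X + C a) + C (4 * R) := by
    have e : C (2 * P) * (C 4 * X + C a) ^ 2 + C (3 * Q) * (C 4 * X + C a) + C (4 * R) =
        1024 * (X ^ 4 + C a * X ^ 3 + C b * X ^ 2 + C c * X + C d : F[X]) -
        64 * (C 4 * X + C a) * (4 * X ^ 3 + 3 * C a * X ^ 2 + 2 * C b * X + C c) := by
      simp only [hP, hQ, hR, Pd, Qd, Rd, map_mul, map_add, map_sub, map_pow, map_ofNat]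
      ring
    rw [e]
    exact dvd_sub (hqg.mul_left _) (hqg'.mul_left _)
  have hV : q ∣ C 4 * (C 4 * X + C a) ^ 3 + C (2 * P) * (C 4 * X + C a) + C Q := by
    have e : C 4 * (C 4 * X + C a) ^ 3 + C (2 * P) * (C 4 * X + C a) + C Q =
        64 * (4 * X ^ 3 + 3 * C a * X ^ 2 + 2 * C b * X + C c) := by
      simp only [hP, hQ, Pd, Qd, map_mul, map_add, map_sub, map_pow, map_ofNat]
      ring
    rw [e]
    exact hqg'.mul_left _
  have hL : q ∣ C (4 * (2 * P ^ 3 - 8 * P * R + 9 * Q ^ 2)) * X +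
      C (a * (2 * P ^ 3 - 8 * P * R + 9 * Q ^ 2) + Q * (P ^ 2 + 12 * R)) := by
    have e : C (4 * (2 * P ^ 3 - 8 * P * R + 9 * Q ^ 2)) * X +
        C (a * (2 * P ^ 3 - 8 * P * R + 9 * Q ^ 2) + Q * (P ^ 2 + 12 * R)) =
        C (P ^ 2) * (C 4 * (C 4 * X + C a) ^ 3 + C (2 * P) * (C 4 * X + C a) + C Q) -
        (C (2 * P) * (C 4 * X + C a) - C (3 * Q)) *
          (C (2 * P) * (C 4 * X + C a) ^ 2 + C (3 * Q) * (C 4 * X + C a) + C (4 * R)) := by
      simp only [map_mul, map_add, map_sub, map_pow, map_ofNat]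
      ring
    rw [e]
    exact dvd_sub (hV.mul_left _) (hW.mul_left _)
  obtain ⟨l1, l2⟩ := lin_zero hd hL
  have m1 : 2 * P ^ 3 - 8 * P * R + 9 * Q ^ 2 = 0 := (mul_eq_zero.1 l1).resolve_left h4
  rw [m1, mul_zero, zero_add] at l2
  by_cases hP0 : P = 0
  · have e : C (2 * P) * (C 4 * X + C a) ^ 2 + C (3 * Q) * (C 4 * X + C a) + C (4 * R) =
        C (12 * Q) * X + C (3 * Q * a + 4 * R) := by
      rw [hP0]
      simp only [map_mul, map_add, map_ofNat, map_zero]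
      ring
    rw [e] at hW
    obtain ⟨w1, w2⟩ := lin_zero hd hW
    have hQ0 : Q = 0 := (mul_eq_zero.1 w1).resolve_left h12
    left
    refine ⟨hQ0, ?_⟩
    rw [hQ0] at w2
    rw [hP0]
    linear_combination w2
  · by_cases hQ0 : Q = 0
    · left
      refine ⟨hQ0, ?_⟩
      rw [hQ0] at m1
      have h5 : P * (2 * (4 * R - P ^ 2)) = 0 := by linear_combination -m1
      exact (mul_eq_zero.1 ((mul_eq_zero.1 h5).resolve_left hP0)).resolve_left h2
    · right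
      have h5 : P ^ 2 + 12 * R = 0 := (mul_eq_zero.1 l2).resolve_left hQ0
      refine ⟨?_, by linear_combination h5⟩
      linear_combination 3 * m1 + 2 * P * h5

lemma quart_eq {R : Type} [CommRing R] [Nontrivial R] {g : R[X]} (hg : g.Monic)
    (hd : g.natDegree = 4) : g = X ^ 4 + C (g.coeff 3) * X ^ 3 + C (g.coeff 2) * X ^ 2 +
      C (g.coeff 1) * X + C (g.coeff 0) := by
  have h := hg.as_sum
  rw [hd] at h
  conv_lhs => rw [h]
  simp only [Finset.sum_range_succ, Finset.sum_range_zero, pow_zero, pow_one, mul_one, zero_add]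
  ring

/-- integer level -/
lemma modp_int {g : ℤ[X]} (hg : g.Monic) (hd : g.natDegree = 4) {p : ℕ} (hp : p.Prime)
    (h7 : 7 < p) (h : IX p 2 g) :
    ((p : ℤ) ∣ Qd (g.coeff 3) (g.coeff 2) (g.coeff 1) ∧
      (p : ℤ) ∣ 4 * Rd (g.coeff 3) (g.coeff 2) (g.coeff 1) (g.coeff 0) -
        Pd (g.coeff 3) (g.coeff 2) ^ 2) ∨
    ((p : ℤ) ∣ 8 * Pd (g.coeff 3) (g.coeff 2) ^ 3 +
        27 * Qd (g.coeff 3) (g.coeff 2) (g.coeff 1) ^ 2 ∧
      (p : ℤ) ∣ 12 * Rd (g.coeff 3) (g.coeff 2) (g.coeff 1) (g.coeff 0) +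
        Pd (g.coeff 3) (g.coeff 2) ^ 2) := by
  haveI : Fact p.Prime := ⟨hp⟩
  have hne : ∀ k : ℕ, 0 < k → k < 8 → ((k : ℕ) : ZMod p) ≠ 0 := by
    intro k hk hk8 h0
    rw [ZMod.natCast_eq_zero_iff] at h0
    have := Nat.le_of_dvd hk h0
    omega
  have h' : IXp 2 (X ^ 4 + C ((g.coeff 3 : ℤ) : ZMod p) * X ^ 3 +
      C ((g.coeff 2 : ℤ) : ZMod p) * X ^ 2 + C ((g.coeff 1 : ℤ) : ZMod p) * X +
      C ((g.coeff 0 : ℤ) : ZMod p) : (ZMod p)[X]) := by
    have e : Pool.Agent.H7.GF.toZ p g = (X ^ 4 + C ((g.coeff 3 : ℤ) : ZMod p) * X ^ 3 +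
      C ((g.coeff 2 : ℤ) : ZMod p) * X ^ 2 + C ((g.coeff 1 : ℤ) : ZMod p) * X +
      C ((g.coeff 0 : ℤ) : ZMod p) : (ZMod p)[X]) := by
      conv_lhs => rw [quart_eq hg hd]
      simp [Pool.Agent.H7.GF.toZ]
    rw [← e]; exact h
  have := modp (by exact_mod_cast hne 2 (by norm_num) (by norm_num))
    (by exact_mod_cast hne 3 (by norm_num) (by norm_num)) _ _ _ _ h'
  simp only [← ZMod.intCast_zmod_eq_zero_iff_dvd]
  simpa [Pd, Qd, Rd] using this

end Pool.Agent.H66.GF.GC4
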