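import Pool.Agent.H66.GF.GC4a

/-! Module GC4 (MP_cd65c5_nt), part b: divisors, covering, the cubic polynomial. -/

set_option autoImplicit false

namespace Pool.Agent.H66.GF.GC4

open Polynomial Pool.Agent.H7.GF

lemma split_C {N : ℕ} (hN : Squarefree N) (u v w z : ℤ)
    (h : ∀ p : ℕ, p.Prime → p ∣ N → ((p : ℤ) ∣ u ∧ (p : ℤ) ∣ v) ∨ ((p : ℤ) ∣ w ∧ (p : ℤ) ∣ z)) :
    ∃ C₁ C₂ : ℕ, C₁ * C₂ = N ∧ C₁.Coprime C₂ ∧ (C₁ : ℤ) ∣ v ∧ (C₂ : ℤ) ∣ z ∧
      ((C₁ * C₂ : ℕ) : ℤ) ∣ u * w := by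
  classical
  set S₁ := N.primeFactors.filter (fun p => ((p : ℕ) : ℤ) ∣ u ∧ ((p : ℕ) : ℤ) ∣ v) with hS₁
  set S₂ := N.primeFactors.filter (fun p => ¬ (((p : ℕ) : ℤ) ∣ u ∧ ((p : ℕ) : ℤ) ∣ v)) with hS₂
  have hmul : (∏ p ∈ S₁, p) * (∏ p ∈ S₂, p) = N := by
    rw [hS₁, hS₂, Finset.prod_filter_mul_prod_filter_not]
    exact Nat.prod_primeFactors_of_squarefree hN
  have key : ∀ (S : Finset ℕ) (t : ℤ), (∀ p ∈ S, p.Prime ∧ (p : ℤ) ∣ t) →
      ((∏ p ∈ S, p : ℕ) : ℤ) ∣ t := by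
    intro S t hS
    rw [Int.natCast_dvd]
    refine Finset.prod_primes_dvd _ (fun p hp => Nat.prime_iff.1 (hS p hp).1) ?_
    intro p hp
    exact Int.natCast_dvd.1 (hS p hp).2
  refine ⟨∏ p ∈ S₁, p, ∏ p ∈ S₂, p, hmul, ?_, ?_, ?_, ?_⟩
  · rw [← hmul] at hN
    exact Nat.coprime_of_squarefree_mul hN
  · refine key _ _ ?_
    intro p hp
    have := Finset.mem_filter.1 hp
    exact ⟨Nat.prime_of_mem_primeFactors this.1, this.2.2⟩
  · refine key _ _ ?_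
    intro p hp
    have h1 := Finset.mem_filter.1 hp
    have hpp := Nat.prime_of_mem_primeFactors h1.1
    exact ⟨hpp, ((h p hpp (Nat.dvd_of_mem_primeFactors h1.1)).resolve_left h1.2).2⟩
  · rw [hmul, ← Nat.prod_primeFactors_of_squarefree hN]
    refine key _ _ ?_
    intro p hp
    have hpp := Nat.prime_of_mem_primeFactors hp
    rcases h p hpp (Nat.dvd_of_mem_primeFactors hp) with h1 | h1
    · exact ⟨hpp, h1.1.mul_right _⟩
    · exact ⟨hpp, h1.1.mul_left _⟩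

/-- squarefree divisors -/
def Dv (N : ℕ) : Finset ℕ := N.primeFactors.powerset.image (fun T => ∏ p ∈ T, p)

lemma mem_Dv {d N : ℕ} (hd : Squarefree d) (h : d ∣ N) (hN : N ≠ 0) : d ∈ Dv N := by
  rw [Dv, Finset.mem_image]
  exact ⟨d.primeFactors, Finset.mem_powerset.2 (Nat.primeFactors_mono h hN),
    Nat.prod_primeFactors_of_squarefree hd⟩

lemma card_Dv (N : ℕ) : (Dv N).card ≤ 2 ^ (om N) := by
  refine Finset.card_image_le.trans ?_
  rw [Finset.card_powerset]; rfl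

lemma cover {α ι : Type*} (T : Finset ι) : ∀ (S : Set α) (F : ι → Set α)
    (_ : ∀ x ∈ S, ∃ t ∈ T, x ∈ F t) (_ : ∀ t ∈ T, (F t).Finite) (B : ℝ)
    (_ : ∀ t ∈ T, ((F t).ncard : ℝ) ≤ B), S.Finite ∧ (S.ncard : ℝ) ≤ T.card * B := by
  classical
  induction T using Finset.induction_on with
  | empty =>
    intro S F hcov _ B _
    have : S = ∅ := by
      rw [Set.eq_empty_iff_forall_notMem]
      intro x hx
      obtain ⟨t, ht, -⟩ := hcov x hx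
      simp at ht
    rw [this]; simp
  | insert i T hi ih =>
    intro S F hcov hfin B hB
    obtain ⟨h1, h2⟩ := ih (S \ F i) F (by
      intro x hx
      obtain ⟨t, ht, hxt⟩ := hcov x hx.1
      rcases Finset.mem_insert.1 ht with rfl | ht
      · exact absurd hxt hx.2
      · exact ⟨t, ht, hxt⟩) (fun t ht => hfin t (Finset.mem_insert_of_mem ht)) B
      (fun t ht => hB t (Finset.mem_insert_of_mem ht))
    have h3 := hfin i (Finset.mem_insert_self _ _)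
    have h4 := hB i (Finset.mem_insert_self _ _)
    have h5 : S ⊆ (S \ F i) ∪ F i := by
      intro x hx
      by_cases h : x ∈ F i
      · exact Or.inr h
      · exact Or.inl ⟨hx, h⟩
    have h6 := (h1.union h3)
    refine ⟨h6.subset h5, ?_⟩
    have h7 : (S.ncard : ℝ) ≤ ((S \ F i).ncard : ℝ) + ((F i).ncard : ℝ) := by
      exact_mod_cast (Set.ncard_le_ncard h5 h6).trans (Set.ncard_union_le _ _)
    rw [Finset.card_insert_of_notMem hi]
    push_cast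
    linarith

/-- the discriminant of the depressed quartic -/
def FF {R : Type} [CommRing R] (P Q T : R) : R :=
  256 * T ^ 3 - 128 * P ^ 2 * T ^ 2 + (144 * P * Q ^ 2 + 16 * P ^ 4) * T - 27 * Q ^ 4
    - 4 * P ^ 3 * Q ^ 2

lemma FF_sq {g : ℤ[X]} (h : Sq4 g) : IsSquare (FF (Pd (g.coeff 3) (g.coeff 2))
    (Qd (g.coeff 3) (g.coeff 2) (g.coeff 1))
    (Rd (g.coeff 3) (g.coeff 2) (g.coeff 1) (g.coeff 0))) := by
  obtain ⟨y, hy⟩ := h
  refine ⟨4096 * y, ?_⟩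
  have h1 : 27 * FF (Pd (g.coeff 3) (g.coeff 2)) (Qd (g.coeff 3) (g.coeff 2) (g.coeff 1))
    (Rd (g.coeff 3) (g.coeff 2) (g.coeff 1) (g.coeff 0)) = 2 ^ 24 * (4 * I4 g ^ 3 - J4 g ^ 2) := by
    simp only [FF, Pd, Qd, Rd, I4, J4]
    ring
  rw [hy] at h1
  linarith

/-- the cubic polynomial -/
noncomputable def hp {R : Type} [CommRing R] (P Q R₀ m : R) : R[X] :=
  FF (C P) (C Q) (C m * X + C R₀)

lemma hp_eval {R : Type} [CommRing R] (P Q R₀ m j : R) :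
    (hp P Q R₀ m).eval j = FF P Q (m * j + R₀) := by
  simp [hp, FF]

lemma hp_cubic {R : Type} [CommRing R] (P Q R₀ m : R) : hp P Q R₀ m =
    C (256 * m ^ 3) * X ^ 3 + C (768 * m ^ 2 * R₀ - 128 * P ^ 2 * m ^ 2) * X ^ 2 +
    C (768 * m * R₀ ^ 2 - 256 * P ^ 2 * m * R₀ + (144 * P * Q ^ 2 + 16 * P ^ 4) * m) * X +
    C (FF P Q R₀) := by
  simp only [hp, FF, map_mul, map_add, map_sub, map_pow, map_ofNat]
  ring

lemma hp_natDegree {R : Type} [CommRing R] (P Q R₀ m : R) (h : 256 * m ^ 3 ≠ 0) :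
    (hp P Q R₀ m).natDegree = 3 := by
  rw [hp_cubic]
  exact natDegree_cubic h

lemma hp_map {R S : Type} [CommRing R] [CommRing S] (φ : R →+* S) (P Q R₀ m : R) :
    (hp P Q R₀ m).map φ = hp (φ P) (φ Q) (φ R₀) (φ m) := by
  simp [hp, FF]

lemma hp_squarefree {F : Type} [Field F] (P Q R₀ m : F) (h2 : (2 : F) ≠ 0) (hm : m ≠ 0)
    (hQ : Q ≠ 0) (hD : 8 * P ^ 3 + 27 * Q ^ 2 ≠ 0) : Squarefree (hp P Q R₀ m) := by
  have hder : derivative (hp P Q R₀ m) = C (16 * m) * (C (9 * P * Q ^ 2 + P ^ 4) -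
      C (16 * P ^ 2) * (C m * X + C R₀) + C 48 * (C m * X + C R₀) ^ 2) := by
    rw [hp_cubic]
    simp only [derivative_add, derivative_mul, derivative_C, derivative_X_pow, derivative_X,
      zero_mul, zero_add, mul_one, add_zero]
    simp only [map_mul, map_add, map_sub, map_pow, map_ofNat]
    norm_num [map_ofNat]
    ring
  have h16 : (16 : F) ≠ 0 := by
    have : (16 : F) = 2 ^ 4 := by norm_num
    rw [this]; exact pow_ne_zero _ h2
  have h16m : 16 * m ≠ 0 := mul_ne_zero h16 hm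
  set N : F := Q ^ 2 * (8 * P ^ 3 + 27 * Q ^ 2) ^ 3 with hN
  have hN0 : N ≠ 0 := mul_ne_zero (pow_ne_zero _ hQ) (pow_ne_zero _ hD)
  set L : F[X] := C m * X + C R₀ with hL
  have hbez : (C (-729 * Q ^ 4 + 972 * P ^ 3 * Q ^ 2 - 8 * P ^ 6) +
        C (-2592 * P * Q ^ 2 + 96 * P ^ 4) * L) * hp P Q R₀ m +
      (C (4536 * P ^ 2 * Q ^ 4 + 480 * P ^ 5 * Q ^ 2) +
        C (-7488 * P ^ 3 * Q ^ 2 + 128 * P ^ 6 + 3888 * Q ^ 4) * L +
        C (13824 * P * Q ^ 2 - 512 * P ^ 4) * L ^ 2) *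
      (C (9 * P * Q ^ 2 + P ^ 4) - C (16 * P ^ 2) * L + C 48 * L ^ 2) = C N := by
    have e : hp P Q R₀ m = FF (C P) (C Q) L := rfl
    rw [e]
    simp only [FF, hN, map_mul, map_add, map_sub, map_pow, map_ofNat, map_neg]
    ring
  have hsep : (hp P Q R₀ m).Separable := by
    refine ⟨C N⁻¹ * (C (-729 * Q ^ 4 + 972 * P ^ 3 * Q ^ 2 - 8 * P ^ 6) +
        C (-2592 * P * Q ^ 2 + 96 * P ^ 4) * L),
      C (N⁻¹ * (16 * m)⁻¹) * (C (4536 * P ^ 2 * Q ^ 4 + 480 * P ^ 5 * Q ^ 2) +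
        C (-7488 * P ^ 3 * Q ^ 2 + 128 * P ^ 6 + 3888 * Q ^ 4) * L +
        C (13824 * P * Q ^ 2 - 512 * P ^ 4) * L ^ 2), ?_⟩
    rw [hder]
    have h1 : (C (16 * m)⁻¹ : F[X]) * C (16 * m) = 1 := by
      rw [← C_mul, inv_mul_cancel₀ h16m, C_1]
    have h3 : (C N⁻¹ : F[X]) * C N = 1 := by
      rw [← C_mul, inv_mul_cancel₀ hN0, C_1]
    rw [← h3, ← hbez, C_mul]
    linear_combination (C N⁻¹ * (C (4536 * P ^ 2 * Q ^ 4 + 480 * P ^ 5 * Q ^ 2) +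
        C (-7488 * P ^ 3 * Q ^ 2 + 128 * P ^ 6 + 3888 * Q ^ 4) * L +
        C (13824 * P * Q ^ 2 - 512 * P ^ 4) * L ^ 2) *
        (C (9 * P * Q ^ 2 + P ^ 4) - C (16 * P ^ 2) * L + C 48 * L ^ 2)) * h1
  exact hsep.squarefree

end Pool.Agent.H66.GF.GC4
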