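import Pool.Agent.H66.GF.GC4b

/-! Module GC4 (MP_cd65c5_nt), part c: the count for given `a₃, a₂, a₁` and residue classes. -/

set_option autoImplicit false

namespace Pool.Agent.H66.GF.GC4

open Polynomial Pool.Agent.H7.GF

/-- the polynomials of the count -/
def GG (a b c : ℤ) (B : ℝ) (C₁ C₂ : ℕ) : Set ℤ[X] :=
  {g | g.Monic ∧ g.natDegree = 4 ∧ g.coeff 3 = a ∧ g.coeff 2 = b ∧ g.coeff 1 = c ∧
    |(g.coeff 0 : ℝ)| ≤ B ∧ Sq4 g ∧ (C₁ : ℤ) ∣ 4 * Rd a b c (g.coeff 0) - Pd a b ^ 2 ∧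
    (C₂ : ℤ) ∣ 12 * Rd a b c (g.coeff 0) + Pd a b ^ 2}

lemma fin_box (J : ℕ) (h : ℤ[X]) : {j : ℤ | |j| ≤ (J : ℤ) ∧ IsSquare (h.eval j)}.Finite := by
  refine (Set.finite_Icc (-(J : ℤ)) J).subset ?_
  rintro j ⟨hj, -⟩
  exact abs_le.1 hj

lemma count (K : ℝ) (hELL : ∀ (J : ℕ) (T : ℝ) (h : ℤ[X]) (R : ℤ), 1 ≤ J → 2 ≤ T →
    h.natDegree = 3 → R ≠ 0 → |(R : ℝ)| ≤ T →
    (∀ p : ℕ, p.Prime → 3 < p → ¬ ((p : ℤ) ∣ R) → (Pool.Agent.H7.GF.toZ p h).natDegree = 3 ∧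
      Squarefree (Pool.Agent.H7.GF.toZ p h)) →
    ({j : ℤ | |j| ≤ (J : ℤ) ∧ IsSquare (h.eval j)}.ncard : ℝ) ≤
      K * ((J : ℝ) ^ (1 / 2 : ℝ) * Real.log (J + 2) + Real.log T ^ 6))
    (a b c : ℤ) (B : ℝ) (C₁ C₂ : ℕ) (J : ℕ) (T : ℝ) (hJ : 1 ≤ J) (hT : 2 ≤ T)
    (hQ : Qd a b c ≠ 0) (hD : 8 * Pd a b ^ 3 + 27 * Qd a b c ^ 2 ≠ 0)
    (h12 : C₁.Coprime C₂) (h6 : (C₁ * C₂).Coprime 6) (hBJ : 2 * B ≤ J * ((C₁ * C₂ : ℕ) : ℝ))
    (hRT : |((2 * ((C₁ * C₂ : ℕ) : ℤ) * (Qd a b c * (8 * Pd a b ^ 3 + 27 * Qd a b c ^ 2)) : ℤ) : ℝ)|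
      ≤ T) :
    (GG a b c B C₁ C₂).Finite ∧ ((GG a b c B C₁ C₂).ncard : ℝ) ≤
      |K| * ((J : ℝ) ^ (1 / 2 : ℝ) * Real.log (J + 2) + Real.log T ^ 6) := by
  have hpos : 0 ≤ (J : ℝ) ^ (1 / 2 : ℝ) * Real.log (J + 2) + Real.log T ^ 6 := by
    have h1 : 0 ≤ Real.log ((J : ℝ) + 2) :=
      Real.log_nonneg (by have : (0 : ℝ) ≤ J := Nat.cast_nonneg J; linarith)
    positivity
  rcases Set.eq_empty_or_nonempty (GG a b c B C₁ C₂) with he | ⟨g₀, hg₀⟩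
  · rw [he]
    simp only [Set.finite_empty, Set.ncard_empty, Nat.cast_zero, true_and]
    positivity
  set N : ℕ := C₁ * C₂ with hN
  have hN0 : N ≠ 0 := by
    intro h
    rw [h] at h6
    norm_num at h6
  have hNz : (N : ℤ) ≠ 0 := by exact_mod_cast hN0
  have hNpos : (0 : ℝ) < (N : ℝ) := by exact_mod_cast Nat.pos_of_ne_zero hN0
  obtain ⟨-, -, -, -, -, hB₀, -, h1₀, h2₀⟩ := hg₀
  set r₀ : ℤ := g₀.coeff 0 with hr₀
  set h : ℤ[X] := hp (Pd a b) (Qd a b c) (Rd a b c r₀) (256 * (N : ℤ)) with hh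
  have hdvd : ∀ g ∈ GG a b c B C₁ C₂, (N : ℤ) ∣ g.coeff 0 - r₀ := by
    rintro g ⟨-, -, -, -, -, -, -, h1, h2⟩
    have e1 : (C₁ : ℤ) ∣ 1024 * (g.coeff 0 - r₀) := by
      have := dvd_sub h1 h1₀
      have e : 4 * Rd a b c (g.coeff 0) - Pd a b ^ 2 - (4 * Rd a b c r₀ - Pd a b ^ 2) =
        1024 * (g.coeff 0 - r₀) := by simp only [Rd]; ring
      rwa [e] at this
    have e2 : (C₂ : ℤ) ∣ 3072 * (g.coeff 0 - r₀) := by
      have := dvd_sub h2 h2₀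
      have e : 12 * Rd a b c (g.coeff 0) + Pd a b ^ 2 - (12 * Rd a b c r₀ + Pd a b ^ 2) =
        3072 * (g.coeff 0 - r₀) := by simp only [Rd]; ring
      rwa [e] at this
    have c1 : C₁.Coprime 6 := Nat.Coprime.coprime_mul_right h6
    have c2 : C₂.Coprime 6 := Nat.Coprime.coprime_mul_left h6
    have k1 : C₁.Coprime 1024 := by
      have : C₁.Coprime 2 := c1.coprime_dvd_right (by norm_num)
      have h3 := this.pow_right 10
      norm_num at h3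
      exact h3
    have k2 : C₂.Coprime 3072 := by
      have h2 : C₂.Coprime 2 := c2.coprime_dvd_right (by norm_num)
      have h3 : C₂.Coprime 3 := c2.coprime_dvd_right (by norm_num)
      have h4 := (h2.pow_right 10).mul_right h3
      norm_num at h4
      exact h4
    have f1 : (C₁ : ℤ) ∣ g.coeff 0 - r₀ :=
      (Nat.isCoprime_iff_coprime.2 k1).dvd_of_dvd_mul_left (by exact_mod_cast e1)
    have f2 : (C₂ : ℤ) ∣ g.coeff 0 - r₀ :=
      (Nat.isCoprime_iff_coprime.2 k2).dvd_of_dvd_mul_left (by exact_mod_cast e2)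
    have := (Nat.isCoprime_iff_coprime.2 h12).mul_dvd f1 f2
    rw [hN]; push_cast; exact this
  have hle : (GG a b c B C₁ C₂).Finite ∧ (GG a b c B C₁ C₂).ncard ≤
      {j : ℤ | |j| ≤ (J : ℤ) ∧ IsSquare (h.eval j)}.ncard := by
    have hmaps : ∀ g ∈ GG a b c B C₁ C₂, (fun g : ℤ[X] => (g.coeff 0 - r₀) / (N : ℤ)) g ∈
        {j : ℤ | |j| ≤ (J : ℤ) ∧ IsSquare (h.eval j)} := by
      intro g hg
      obtain ⟨j, hj⟩ := hdvd g hg
      obtain ⟨-, -, h3, h2, h1, hB, hsq, -, -⟩ := hg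
      have hdiv : (g.coeff 0 - r₀) / (N : ℤ) = j := by
        rw [hj]; exact Int.mul_ediv_cancel_left _ hNz
      simp only [hdiv]
      refine ⟨?_, ?_⟩
      · have h5 : |((g.coeff 0 : ℝ)) - (r₀ : ℝ)| ≤ 2 * B := by
          have := abs_sub (g.coeff 0 : ℝ) (r₀ : ℝ)
          linarith
        have h6 : ((g.coeff 0 : ℝ)) - (r₀ : ℝ) = N * j := by exact_mod_cast hj
        rw [h6, abs_mul, abs_of_pos hNpos] at h5
        have h7 : (N : ℝ) * |(j : ℝ)| ≤ N * J := by linarith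
        have h8 : |(j : ℝ)| ≤ J := le_of_mul_le_mul_left h7 hNpos
        exact_mod_cast h8
      · rw [hh, hp_eval]
        have e : 256 * (N : ℤ) * j + Rd a b c r₀ = Rd a b c (g.coeff 0) := by
          have : g.coeff 0 = r₀ + N * j := by linarith
          rw [this]; simp only [Rd]; ring
        rw [e]
        have := FF_sq hsq
        rwa [h3, h2, h1] at this
    have hinj : Set.InjOn (fun g : ℤ[X] => (g.coeff 0 - r₀) / (N : ℤ)) (GG a b c B C₁ C₂) := by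
      intro g hg g' hg' heq
      obtain ⟨j, hj⟩ := hdvd g hg
      obtain ⟨j', hj'⟩ := hdvd g' hg'
      simp only [hj, hj', Int.mul_ediv_cancel_left _ hNz] at heq
      subst heq
      have h0 : g.coeff 0 = g'.coeff 0 := by linarith
      obtain ⟨m, d, h3, h2, h1, -⟩ := hg
      obtain ⟨m', d', h3', h2', h1', -⟩ := hg'
      rw [quart_eq m d, quart_eq m' d', h3, h2, h1, h3', h2', h1', h0]
    have hf := fin_box J h
    exact ⟨Set.Finite.of_injOn hmaps hinj hf, Set.ncard_le_ncard_of_injOn _ hmaps hinj hf⟩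
  refine ⟨hle.1, ?_⟩
  have h1 : ((GG a b c B C₁ C₂).ncard : ℝ) ≤
      ({j : ℤ | |j| ≤ (J : ℤ) ∧ IsSquare (h.eval j)}.ncard : ℝ) := by exact_mod_cast hle.2
  refine h1.trans ?_
  refine (hELL J T h (2 * ((N : ℕ) : ℤ) * (Qd a b c * (8 * Pd a b ^ 3 + 27 * Qd a b c ^ 2))) hJ hT
    ?_ ?_ hRT ?_).trans (mul_le_mul_of_nonneg_right (le_abs_self K) hpos)
  · rw [hh]
    refine hp_natDegree _ _ _ _ ?_
    exact mul_ne_zero (by norm_num) (pow_ne_zero _ (mul_ne_zero (by norm_num) hNz))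
  · exact mul_ne_zero (mul_ne_zero two_ne_zero hNz) (mul_ne_zero hQ hD)
  · intro p hpp h3 hR
    haveI : Fact p.Prime := ⟨hpp⟩
    have hcast : ((2 * ((N : ℕ) : ℤ) * (Qd a b c * (8 * Pd a b ^ 3 + 27 * Qd a b c ^ 2)) : ℤ) :
        ZMod p) ≠ 0 := by
      rw [Ne, ZMod.intCast_zmod_eq_zero_iff_dvd]; exact hR
    have hcast' := hcast
    push_cast at hcast'
    have n1 := left_ne_zero_of_mul hcast'
    have n2 := right_ne_zero_of_mul hcast'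
    have n3 := left_ne_zero_of_mul n1
    have n4 := right_ne_zero_of_mul n1
    have n5 := left_ne_zero_of_mul n2
    have n6 := right_ne_zero_of_mul n2
    have h256 : (256 : ZMod p) ≠ 0 := by
      have : (256 : ZMod p) = 2 ^ 8 := by norm_num
      rw [this]; exact pow_ne_zero _ n3
    have hm : (256 : ZMod p) * (N : ZMod p) ≠ 0 := mul_ne_zero h256 n4
    have e : Pool.Agent.H7.GF.toZ p h = hp ((Pd a b : ℤ) : ZMod p) ((Qd a b c : ℤ) : ZMod p)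
        ((Rd a b c r₀ : ℤ) : ZMod p) (256 * (N : ZMod p)) := by
      rw [Pool.Agent.H7.GF.toZ, hh, hp_map]
      simp
    rw [e]
    refine ⟨hp_natDegree _ _ _ _ (mul_ne_zero h256 (pow_ne_zero _ hm)), ?_⟩
    exact hp_squarefree _ _ _ _ n3 hm n5 n6

end Pool.Agent.H66.GF.GC4
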